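import Mathlib

/-!
# MP_0f31da_co: induced forests, induced bipartite subgraphs and local independence

Take a 4-cycle and a complete graph on 27 vertices and join them by one edge. For this connected
graph of order 31 the largest induced forest has at most 5 vertices, some induced bipartite
subgraph has 6 vertices, and the sum of the local independence numbers is at most 37. So
`f(G)` times the average of `l` is at most `185 / 31 < 6`.
-/

set_option autoImplicit false

namespace Pool.Agent.Results.MP_0f31da_co.Counterexample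

/-- `f(G)`: the largest number of vertices of an induced forest. -/
noncomputable def f {n : ℕ} (G : SimpleGraph (Fin n)) : ℕ :=
  sSup {k : ℕ | ∃ S : Finset (Fin n), S.card = k ∧ (G.induce (S : Set (Fin n))).IsAcyclic}

/-- `b(G)`: the largest number of vertices of an induced bipartite subgraph. -/
noncomputable def b {n : ℕ} (G : SimpleGraph (Fin n)) : ℕ :=
  sSup {k : ℕ | ∃ S : Finset (Fin n), S.card = k ∧ (G.induce (S : Set (Fin n))).IsBipartite}

/-- `l(v)`: the independence number of the subgraph induced on the neighbours of `v`. -/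
noncomputable def l {n : ℕ} (G : SimpleGraph (Fin n)) (v : Fin n) : ℕ :=
  (G.induce (G.neighborSet v)).indepNum

/-- The average of `l(v)` over all vertices `v`. -/
noncomputable def lbar {n : ℕ} (G : SimpleGraph (Fin n)) : ℝ :=
  (∑ v : Fin n, (l G v : ℝ)) / (n : ℝ)

/-- The graph of order 31: a 4-cycle `0, 1, 2, 3`, a complete graph on `4, …, 30` and the edge
from `0` to `4`. -/
def G31 : SimpleGraph (Fin 31) where
  Adj u v := (u.val < 4 ∧ v.val < 4 ∧ u.val % 2 ≠ v.val % 2) ∨ (4 ≤ u.val ∧ 4 ≤ v.val ∧ u ≠ v) ∨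
    (u.val = 0 ∧ v.val = 4) ∨ (u.val = 4 ∧ v.val = 0)
  symm := ⟨fun u v h => by
    rcases h with ⟨h1, h2, h3⟩ | ⟨h1, h2, h3⟩ | ⟨h1, h2⟩ | ⟨h1, h2⟩
    · exact Or.inl ⟨h2, h1, h3.symm⟩
    · exact Or.inr (Or.inl ⟨h2, h1, h3.symm⟩)
    · exact Or.inr (Or.inr (Or.inr ⟨h2, h1⟩))
    · exact Or.inr (Or.inr (Or.inl ⟨h2, h1⟩))⟩
  loopless := ⟨fun u h => by
    rcases h with ⟨h1, h2, h3⟩ | ⟨h1, h2, h3⟩ | ⟨h1, h2⟩ | ⟨h1, h2⟩
    · exact h3 rfl
    · exact h3 rfl
    · omega
    · omega⟩

instance : DecidableRel G31.Adj := fun u v => inferInstanceAs (Decidable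
  ((u.val < 4 ∧ v.val < 4 ∧ u.val % 2 ≠ v.val % 2) ∨ (4 ≤ u.val ∧ 4 ≤ v.val ∧ u ≠ v) ∨
    (u.val = 0 ∧ v.val = 4) ∨ (u.val = 4 ∧ v.val = 0)))

lemma connected : G31.Connected := by
  have h0 : ∀ v : Fin 31, G31.Reachable 0 v := by
    have h04 : G31.Adj 0 4 := by decide
    have h01 : G31.Adj 0 1 := by decide
    have h03 : G31.Adj 0 3 := by decide
    have h12 : G31.Adj 1 2 := by decide
    intro v
    by_cases hv : 4 ≤ v.val
    · by_cases h4 : v = 4
      · rw [h4]; exact h04.reachable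
      · have : G31.Adj 4 v := Or.inr (Or.inl ⟨le_refl _, hv, fun h => h4 h.symm⟩)
        exact h04.reachable.trans this.reachable
    · have : v = 0 ∨ v = 1 ∨ v = 2 ∨ v = 3 := by
        rcases v with ⟨v, hv'⟩
        simp only [Fin.ext_iff] at *
        simp at hv ⊢
        omega
      rcases this with rfl | rfl | rfl | rfl
      · exact SimpleGraph.Reachable.refl _
      · exact h01.reachable
      · exact h01.reachable.trans h12.reachable
      · exact h03.reachable
  exact ⟨fun u v => (h0 u).symm.trans (h0 v)⟩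

/-- two different paths with the same ends exclude acyclicity -/
lemma no_triangle {V : Type} (H : SimpleGraph V) (hH : H.IsAcyclic) (a b c : V)
    (h1 : H.Adj a b) (h2 : H.Adj b c) (h3 : H.Adj a c) : False := by
  have hp : (SimpleGraph.Walk.cons h3 .nil : H.Walk a c).IsPath := by
    simp [SimpleGraph.Walk.isPath_def, h3.ne]
  have hq : (SimpleGraph.Walk.cons h1 (.cons h2 .nil) : H.Walk a c).IsPath := by
    simp [SimpleGraph.Walk.isPath_def, h1.ne, h2.ne, h3.ne]
  have := (hH.subsingleton_path a c).elim ⟨_, hp⟩ ⟨_, hq⟩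
  have h := congrArg (fun p : H.Path a c => p.1.length) this
  simp at h

lemma no_square {V : Type} (H : SimpleGraph V) (hH : H.IsAcyclic) (a b c d : V)
    (h1 : H.Adj a b) (h2 : H.Adj b c) (h3 : H.Adj a d) (h4 : H.Adj d c) (hac : a ≠ c)
    (hbd : b ≠ d) : False := by
  have hp : (SimpleGraph.Walk.cons h1 (.cons h2 .nil) : H.Walk a c).IsPath := by
    simp [SimpleGraph.Walk.isPath_def, h1.ne, h2.ne, hac]
  have hq : (SimpleGraph.Walk.cons h3 (.cons h4 .nil) : H.Walk a c).IsPath := by
    simp [SimpleGraph.Walk.isPath_def, h3.ne, h4.ne, hac]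
  have := (hH.subsingleton_path a c).elim ⟨_, hp⟩ ⟨_, hq⟩
  have h := congrArg (fun p : H.Path a c => p.1.support) this
  simp at h
  exact hbd h

lemma f_le : f G31 ≤ 5 := by
  have hne : {k : ℕ | ∃ S : Finset (Fin 31), S.card = k ∧
      (G31.induce (S : Set (Fin 31))).IsAcyclic}.Nonempty := by
    refine ⟨0, ∅, rfl, ?_⟩
    intro v
    exact absurd v.2 (by simp)
  refine csSup_le hne ?_
  rintro k ⟨S, rfl, hS⟩
  by_contra hlt
  push Not at hlt
  -- at most two vertices in the complete part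
  have hA : (S.filter fun v => 4 ≤ v.val).card ≤ 2 := by
    by_contra h
    push Not at h
    obtain ⟨a, b, c, ha, hb, hc, hab, hac, hbc⟩ := Finset.two_lt_card_iff.1 h
    simp only [Finset.mem_filter] at ha hb hc
    exact no_triangle _ hS ⟨a, ha.1⟩ ⟨b, hb.1⟩ ⟨c, hc.1⟩
      (show G31.Adj a b from Or.inr (Or.inl ⟨ha.2, hb.2, hab⟩))
      (show G31.Adj b c from Or.inr (Or.inl ⟨hb.2, hc.2, hbc⟩))
      (show G31.Adj a c from Or.inr (Or.inl ⟨ha.2, hc.2, hac⟩))
  have hB : (S.filter fun v => ¬ 4 ≤ v.val).card ≤ 3 := by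
    by_contra h0
    have h : 4 ≤ (S.filter fun v => ¬ 4 ≤ v.val).card := Nat.lt_of_not_le h0
    have hsub : (S.filter fun v => ¬ 4 ≤ v.val) ⊆ ({0, 1, 2, 3} : Finset (Fin 31)) := by
      intro v hv
      have := (Finset.mem_filter.1 hv).2
      simp only [Finset.mem_insert, Finset.mem_singleton, Fin.ext_iff]
      simp
      omega
    have heq := Finset.eq_of_subset_of_card_le hsub 
      (le_trans (by decide : ({0, 1, 2, 3} : Finset (Fin 31)).card ≤ 4) h)
    have hm : ∀ v ∈ ({0, 1, 2, 3} : Finset (Fin 31)), v ∈ S := by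
      intro v hv
      rw [← heq] at hv
      exact (Finset.mem_filter.1 hv).1
    exact no_square _ hS ⟨0, hm 0 (by simp)⟩ ⟨1, hm 1 (by simp)⟩ ⟨2, hm 2 (by simp)⟩
      ⟨3, hm 3 (by simp)⟩
      (show G31.Adj 0 1 by decide) (show G31.Adj 1 2 by decide)
      (show G31.Adj 0 3 by decide) (show G31.Adj 3 2 by decide)
      (by simp) (by simp)
  have := Finset.card_filter_add_card_filter_not (s := S) (fun v : Fin 31 => 4 ≤ v.val)
  omega

lemma b_ge : 6 ≤ b G31 := by
  have hbdd : BddAbove {k : ℕ | ∃ S : Finset (Fin 31), S.card = k ∧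
      (G31.induce (S : Set (Fin 31))).IsBipartite} := by
    refine ⟨31, ?_⟩
    rintro k ⟨S, rfl, -⟩
    simpa using Finset.card_le_univ S
  refine le_csSup hbdd ⟨{0, 1, 2, 3, 4, 5}, by decide, ?_⟩
  refine ⟨SimpleGraph.Coloring.mk
    (fun v => if (v.1.val % 2 = 0 ∧ v.1.val < 4) ∨ v.1.val = 5 then 0 else 1) ?_⟩
  have key : ∀ u ∈ ({0, 1, 2, 3, 4, 5} : Finset (Fin 31)), ∀ v ∈ ({0, 1, 2, 3, 4, 5} :
      Finset (Fin 31)), G31.Adj u v →
      (if (u.val % 2 = 0 ∧ u.val < 4) ∨ u.val = 5 then (0 : Fin 2) else 1) ≠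
      (if (v.val % 2 = 0 ∧ v.val < 4) ∨ v.val = 5 then (0 : Fin 2) else 1) := by
    decide
  intro u v huv
  exact key u.1 u.2 v.1 v.2 huv

/-- class of a vertex: all vertices of the complete part together, the others alone -/
def cl (v : Fin 31) : ℕ := if 4 ≤ v.val then 4 else v.val

lemma l_le (v : Fin 31) : l G31 v ≤ ((Finset.univ.filter fun w => G31.Adj v w).image cl).card := by
  unfold l
  obtain ⟨s, hs⟩ := (G31.induce (G31.neighborSet v)).exists_isNIndepSet_indepNum
  rw [SimpleGraph.isNIndepSet_iff] at hs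
  rw [← hs.2]
  refine Finset.card_le_card_of_injOn (fun w => cl w.1) ?_ ?_
  · intro w hw
    simp only [Finset.coe_image, Set.mem_image, Finset.mem_coe, Finset.mem_filter,
      Finset.mem_univ, true_and]
    exact ⟨w.1, w.2, rfl⟩
  · intro x hx y hy hxy
    by_contra hne
    have h1 := hs.1 hx hy hne
    apply h1
    have hne' : x.1 ≠ y.1 := fun h => hne (Subtype.ext h)
    have hcl : 4 ≤ x.1.val ∧ 4 ≤ y.1.val := by
      simp only [cl] at hxy
      have : x.1.val ≠ y.1.val := fun h => hne' (Fin.ext h)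
      split_ifs at hxy <;> omega
    exact (show G31.Adj x.1 y.1 from Or.inr (Or.inl ⟨hcl.1, hcl.2, hne'⟩))

lemma sum_le : ∑ v : Fin 31, l G31 v ≤ 37 := by
  calc ∑ v : Fin 31, l G31 v
      ≤ ∑ v : Fin 31, ((Finset.univ.filter fun w => G31.Adj v w).image cl).card :=
        Finset.sum_le_sum fun v _ => l_le v
    _ = 37 := by decide +kernel

/-- The inequality `f(G) ≥ ⌈b(G) / lbar(G)⌉` fails for some connected graph with at least two
vertices. -/
theorem result :
    ¬ ∀ (n : ℕ) (G : SimpleGraph (Fin n)), 2 ≤ n → G.Connected →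
      ⌈(b G : ℝ) / lbar G⌉₊ ≤ f G := by
  intro h
  have h1 := h 31 G31 (by norm_num) connected
  rw [Nat.ceil_le] at h1
  have hs : (∑ v : Fin 31, (l G31 v : ℝ)) ≤ 37 := by exact_mod_cast sum_le
  have hb : (6 : ℝ) ≤ b G31 := by exact_mod_cast b_ge
  have hf : (f G31 : ℝ) ≤ 5 := by exact_mod_cast f_le
  have hpos : 0 < lbar G31 := by
    unfold lbar
    apply div_pos _ (by norm_num)
    have : 0 < l G31 0 := by
      unfold l
      have hn : (G31.induce (G31.neighborSet 0)).IsNIndepSet 1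
          {⟨1, (by decide : G31.Adj 0 1)⟩} := by
        rw [SimpleGraph.isNIndepSet_iff]
        simp
      have h3 := hn.1.card_le_indepNum
      rw [hn.2] at h3
      exact h3
    have h2 : (0 : ℝ) < l G31 0 := by exact_mod_cast this
    exact lt_of_lt_of_le h2 (Finset.single_le_sum (f := fun v => (l G31 v : ℝ))
      (fun v _ => by positivity) (Finset.mem_univ 0))
  have hl : lbar G31 ≤ 37 / 31 := by
    unfold lbar
    push_cast
    exact div_le_div_of_nonneg_right hs (by norm_num)
  have h2 : (6 : ℝ) / (37 / 31) ≤ (b G31 : ℝ) / lbar G31 :=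
    div_le_div₀ (by linarith) hb hpos hl
  norm_num at h2
  linarith

end Pool.Agent.Results.MP_0f31da_co.Counterexample
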